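import Pool.Agent.Helper272_PT.Main

set_option autoImplicit false

/-!
# MP_5e7226_co: interior points beyond all extreme points but one

How does `s(K, o)` depend on `o`?  Let `K` be a convex body in a `d`-dimensional Euclidean space,
`d ≥ 2`, `a` an extreme point of `K`, and let `o` be an interior point of `K` which is not in the
closed convex hull `C` of the other extreme points of `K`.  (If `K` is a polytope, then these are the
points `o` of a nonempty open set for every vertex `a`; all interior points close enough to `a`
belong to it.)  We prove: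

1. Let `W` be any hyperplane through `o` which is disjoint from `C`.  Then
   `s(K, o) ≤ s(K ∩ W, o) + 1`.
2. So, if `N` hyperplanes suffice for all convex bodies and interior points in dimension `d - 1`,
   then `s(K, o) ≤ N + 1`; in particular the bound `2 ^ (d - 1)` of the conjecture in dimension
   `d - 1` implies `s(K, o) ≤ 2 ^ (d - 1) + 1 < 2 ^ d` (`d ≥ 3`), and both parts of the
   conjecture for `(K, o)`.
3. `s(K, o) ≤ 5` if `d = 3`, and `s(K, o) ≤ 14` if `d = 4`, without any assumption.

The starting hand-in `PyramidCut` has the bound `2 s(K ∩ W, o)` if `W` weakly separates `a` from the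
other extreme points (which is the best possible bound for cross-bodies centred at `o`, where `o` is
on the boundary of `C`); and `NearFacets` has the bound `s(F, o') + 1` for the points near a relative
interior point `o'` of a facet `F`.

The proof. One of the hyperplanes is parallel to `W` and separates `C` from `o` and `a`: it takes care
of all faces not containing `a`, which are in `C`.  For each of the separating hyperplanes `L` of `W`
for `K ∩ W` take a hyperplane parallel to the hyperplane through `L` and `a`, between it and `o`.  Let `G` be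
a face of `K` containing `a` and other points, maximizing `u`.  The points of `G` are on segments from
`a` to points `y` of `G ∩ C`, and all these segments meet `W` in points of the same face of `K ∩ W`.
An `L` which separates this face from `o` belongs to a hyperplane which separates `G` from `o`.
In (3) the bounds 4 for the plane and 13 for the space of the starting files are used.
-/

namespace Pool.Agent.Results.MP_5e7226_co.BeyondOtherExtremePoints

open scoped InnerProductSpace
open Module

/-- `s(K, o) ≤ n`: there are at most `n` hyperplanes `{x | ⟪h.1, x⟫ = h.2}` such that every face of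
`K` (the set of the points of `K` at which a functional `⟪u, ·⟫`, `u ≠ 0`, is maximal on `K`) is
strictly separated from `o` by one of them. -/
def Separable {E : Type*} [NormedAddCommGroup E] [InnerProductSpace ℝ E] (n : ℕ) (K : Set E)
    (o : E) : Prop :=
  ∃ H : Finset (E × ℝ), H.card ≤ n ∧ (∀ h ∈ H, h.1 ≠ 0) ∧
    ∀ u x₀ : E, u ≠ 0 → x₀ ∈ K → (∀ y ∈ K, ⟪u, y⟫_ℝ ≤ ⟪u, x₀⟫_ℝ) →
      ∃ h ∈ H, ⟪h.1, o⟫_ℝ < h.2 ∧ ∀ x ∈ K, ⟪u, x⟫_ℝ = ⟪u, x₀⟫_ℝ → h.2 < ⟪h.1, x⟫_ℝ

/-- The part of `K` in the hyperplane through `o` orthogonal to `e`, as a subset of the linear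
hyperplane `eᗮ` (`o` corresponds to `0`). -/
def sect {E : Type*} [NormedAddCommGroup E] [InnerProductSpace ℝ E] (K : Set E) (o e : E) :
    Set (Submodule.span ℝ {e})ᗮ :=
  {w | o + (w : E) ∈ K}

/-- **Main theorem.** Let `K` be a convex body in a Euclidean space `E` of dimension `d ≥ 2`, `o` an
interior point of `K` and `a` a point.
(1) Let `e` be a vector such that `⟪e, b - o⟫ ≥ δ > 0` for all extreme points `b ≠ a` of `K`.  If `n`
hyperplanes suffice for the section of `K` by the hyperplane through `o` orthogonal to `e`, and `o`,
then `n + 1` hyperplanes suffice for `K` and `o`.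
Suppose that `o` is not in the closed convex hull of the extreme points of `K` other than `a`.
(2) There is a vector `e ≠ 0` as in (1).
(3) If `n` hyperplanes suffice for all convex bodies with interior point `0` in the linear hyperplanes
`eᗮ` (the Euclidean spaces of dimension `d - 1`), then `n + 1` hyperplanes suffice for `K` and `o`.
(4) 5 hyperplanes suffice for `K` and `o` if `d = 3`, and 14 if `d = 4`. -/
theorem result (E : Type) [NormedAddCommGroup E] [InnerProductSpace ℝ E] [FiniteDimensional ℝ E]
    (hd : 2 ≤ finrank ℝ E) (K : Set E) (hK : Convex ℝ K) (hKc : IsCompact K) (o : E)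
    (ho : o ∈ interior K) (a : E) :
    (∀ (e : E) (δ : ℝ), 0 < δ → (∀ b ∈ K.extremePoints ℝ, b ≠ a → δ ≤ ⟪e, b - o⟫_ℝ) →
      ∀ n : ℕ, Separable n (sect K o e) 0 → Separable (n + 1) K o) ∧
    (o ∉ closure (convexHull ℝ (K.extremePoints ℝ \ {a})) →
      (∃ (e : E) (δ : ℝ), e ≠ 0 ∧ 0 < δ ∧
        ∀ b ∈ K.extremePoints ℝ, b ≠ a → δ ≤ ⟪e, b - o⟫_ℝ) ∧
      (∀ n : ℕ, (∀ (e : E) (L : Set (Submodule.span ℝ {e})ᗮ), e ≠ 0 → Convex ℝ L → IsCompact L →
        0 ∈ interior L → Separable n L 0) → Separable (n + 1) K o) ∧
      (finrank ℝ E = 3 → Separable 5 K o) ∧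
      (finrank ℝ E = 4 → Separable 14 K o)) := by
  refine ⟨fun e δ hδ h n hs => Helper272_PT.main' hK hKc ho hδ hd h hs, fun hout =>
    ⟨?_, fun n hn => Helper272_PT.gen hK hKc ho hout hd hn,
      fun h3 => Helper272_PT.three hK hKc ho hout h3,
      fun h4 => Helper272_PT.four hK hKc ho hout h4⟩⟩
  obtain ⟨e, δ, hδ, h⟩ := Helper272_PT.exists_e hout
  refine ⟨e, δ, ?_, hδ, h⟩
  rintro rfl
  have := (Helper272_PT.apex hK hKc ho hδ hd h).2
  simp at this

end Pool.Agent.Results.MP_5e7226_co.BeyondOtherExtremePoints
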