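import Pool.Agent.Helper272_UH.B

set_option autoImplicit false

/-!
# MP_5e7226_co: bodies with `d` independent hyperplanes through `o` that cross no face

Let `K` be a convex body in `ℝ^d` and `o` an interior point. A hyperplane `H` through `o` is called
uncrossed if every face of `K` is contained in one of the two closed half-spaces bounded by `H`. Let
`H_1, …, H_d` be uncrossed hyperplanes through `o` with linearly independent normal vectors, and let
`e_1, …, e_d` be the dual basis; the `2 d` half-lines from `o` in the directions `± e_i` are called axes.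
A pattern consists of a set `S` of indices and signs `s_i`, `i ∈ S`; it is called full if one face of `K`
meets all the `|S|` axes `s_i e_i`, `i ∈ S`.

**Theorem.** Both parts of the conjecture are true for `(K, o)`: `2^d` hyperplanes are enough to
separate the faces of `K` strictly from `o`, and `2^d - 1` are enough unless `K` is a cross-body
centred at `o`. More precisely, let `N` be the number of the full patterns with `|S| = d`. Then

  `N ≤ s(K, o) ≤ 2^d - ∑ 2^(d - |S|)`,

where the sum is taken over any family of patterns which are not full such that any two of them have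
different signs at three or more common places. In particular `s(K, o) ≤ 2^d - 2^(d-h)` if some
pattern with `h` indices is not full, i.e. if some `h` axes with different indices do not meet a common
face of `K`; this is best possible for `2 ≤ h ≤ d` (polars of a cube with one truncated corner plus a
cube). For the polars of the zonotopes other than parallelotopes there are such patterns with `h = 2`,
and this is Martini's bound `3 · 2^(d-2)`. The codes of distance three give: `s(K, o) ≤ 2^d - 2` if
`d ≥ 3` and `K` is centrally symmetric about `o` and not a cross-body; `s(K, o) ≤ 2^d (1 - 1/(d+1))`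
for `d = 2^r - 1` if no pattern with `|S| = d` is full. For a cross-body with low pyramids put on the
facets of a code `D` both bounds are equal to `2^d - |D|`.

Proof. In the polar body `P` of `K` every normal cone is contained in one of the orthants of the
functionals with fixed signs at the normal vectors `n_i` of the `H_i`. The directions
`-∑ σ_i w_i n_i`, `w_i > 0`, illuminate the extreme points of `P` with the signs `σ`. If the pattern
`(S, s)` is not full then the corresponding face of the circumscribed parallelotope of `P` does not meet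
`P`; so for each extreme point of `P` with the signs `σ` extending `s` there is an index `i ∈ S` such that
the coordinate `i` has a positive distance from its maximum, and the point is illuminated by the
direction for the signs `τ` with `τ_i = -σ_i`, if the weight `w_i` of this direction is small. For
patterns with three common places with different signs these small weights are compatible.
-/

open scoped InnerProductSpace

namespace Pool.Agent.Results.MP_5e7226_co.UncrossedHyperplanes

/-- The Euclidean space `ℝ^d`. -/
abbrev Eu (d : ℕ) : Type := EuclideanSpace ℝ (Fin d)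

/-- Some `N` hyperplanes `{x | ⟪w i, x⟫ = b i}` are such that every face of `K` (the set of the
points `x` of `K` at which `⟪u, x⟫` is maximal, `u ≠ 0`) is strictly separated from `o` by one of
them. -/
def SeparatedBy {d : ℕ} (K : Set (Eu d)) (o : Eu d) (N : ℕ) : Prop :=
  ∃ (w : Fin N → Eu d) (b : Fin N → ℝ), ∀ u x₀ : Eu d, u ≠ 0 → x₀ ∈ K →
    (∀ y ∈ K, ⟪u, y⟫_ℝ ≤ ⟪u, x₀⟫_ℝ) →
      ∃ i, ⟪w i, o⟫_ℝ < b i ∧ ∀ x ∈ K, ⟪u, x⟫_ℝ = ⟪u, x₀⟫_ℝ → b i < ⟪w i, x⟫_ℝ

/-- `K` is a cross-body centred at `o`. -/
def IsCrossBody {d : ℕ} (K : Set (Eu d)) (o : Eu d) : Prop :=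
  ∃ (v : Fin d → Eu d) (t : Fin d → ℝ), LinearIndependent ℝ v ∧ (∀ i, 0 < t i) ∧
    K = convexHull ℝ (⋃ i, ({o + v i, o - t i • v i} : Set (Eu d)))

/-- The hyperplane through `o` with the normal vector `n` crosses no face of `K`: every face of `K`
is contained in one of its two closed half-spaces. -/
def Uncrossed {d : ℕ} (K : Set (Eu d)) (o n : Eu d) : Prop :=
  ∀ u : Eu d, u ≠ 0 →
    (∀ x ∈ K, (∀ y ∈ K, ⟪u, y⟫_ℝ ≤ ⟪u, x⟫_ℝ) → 0 ≤ ⟪n, x - o⟫_ℝ) ∨
    (∀ x ∈ K, (∀ y ∈ K, ⟪u, y⟫_ℝ ≤ ⟪u, x⟫_ℝ) → ⟪n, x - o⟫_ℝ ≤ 0)

/-- the sign `1` or `-1` -/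
def sign (s : Bool) : ℝ := if s then 1 else -1

/-- One face of `K` meets all the half-lines from `o` in the directions `s_i e_i`, `i ∈ S`. -/
def Full {d : ℕ} (K : Set (Eu d)) (o : Eu d) (e : Fin d → Eu d) (S : Finset (Fin d))
    (s : Fin d → Bool) : Prop :=
  ∃ u : Eu d, u ≠ 0 ∧ ∀ i ∈ S, ∃ t : ℝ, 0 < t ∧ o + (sign (s i) * t) • e i ∈ K ∧
    ∀ y ∈ K, ⟪u, y⟫_ℝ ≤ ⟪u, o + (sign (s i) * t) • e i⟫_ℝ

/-- the two forms of the definition of a cross-body -/
theorem isCrossBody_iff {d : ℕ} (K : Set (Eu d)) (o : Eu d) : IsCrossBody K o ↔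
    ∃ (v : Fin d → Eu d) (t : Fin d → ℝ), LinearIndependent ℝ v ∧ (∀ i, 0 < t i) ∧
      K = convexHull ℝ (Set.range (fun i => o + v i) ∪ Set.range (fun i => o - t i • v i)) := by
  have e : ∀ (v : Fin d → Eu d) (t : Fin d → ℝ),
      (⋃ i, ({o + v i, o - t i • v i} : Set (Eu d))) =
        Set.range (fun i => o + v i) ∪ Set.range (fun i => o - t i • v i) := by
    intro v t
    ext x
    simp only [Set.mem_iUnion, Set.mem_insert_iff, Set.mem_singleton_iff, Set.mem_union,
      Set.mem_range]
    constructor
    · rintro ⟨i, h | h⟩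
      · exact Or.inl ⟨i, h.symm⟩
      · exact Or.inr ⟨i, h.symm⟩
    · rintro (⟨i, h⟩ | ⟨i, h⟩)
      · exact ⟨i, Or.inl h.symm⟩
      · exact ⟨i, Or.inr h.symm⟩
  unfold IsCrossBody
  simp only [e]

/-- **Theorem.** Let `K` be a convex body in `ℝ^d` with the interior point `o`, and let `n_1, …, n_d` be
linearly independent vectors such that the hyperplanes through `o` with these normal vectors cross no
face of `K`. Then `2 ^ d` hyperplanes suffice to separate the faces of `K` strictly from `o`, `2 ^ d - 1`
suffice if and only if `K` is not a cross-body centred at `o`, and `2 ^ d - 2` suffice if `d ≥ 3` and `K`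
is centrally symmetric about `o` and not a cross-body. Let `e_1, …, e_d` be the dual basis. If the
patterns `(S_p, s_p)` are not full, and any two of them have different signs at three or more common
indices, then `2 ^ d - ∑ 2 ^ (d - |S_p|)` hyperplanes suffice; and at least as many hyperplanes are needed
as there are full patterns with `|S| = d`. -/
theorem result (d : ℕ) (hd : 1 ≤ d) (K : Set (Eu d)) (hK : Convex ℝ K) (hKc : IsCompact K)
    (o : Eu d) (ho : o ∈ interior K) (n : Fin d → Eu d) (hn : LinearIndependent ℝ n)
    (h : ∀ i, Uncrossed K o (n i)) :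
    SeparatedBy K o (2 ^ d) ∧ (SeparatedBy K o (2 ^ d - 1) ↔ ¬ IsCrossBody K o) ∧
    (3 ≤ d → (∀ x ∈ K, o + (o - x) ∈ K) → ¬ IsCrossBody K o → SeparatedBy K o (2 ^ d - 2)) ∧
    ∀ e : Fin d → Eu d, (∀ i j, ⟪n i, e j⟫_ℝ = if i = j then 1 else 0) →
      (∀ (ι : Type) [Fintype ι] (S : ι → Finset (Fin d)) (s : ι → Fin d → Bool),
        (∀ p, ¬ Full K o e (S p) (s p)) →
        (∀ p q, p ≠ q → 3 ≤ ((S p ∩ S q).filter fun i => s p i ≠ s q i).card) →
        SeparatedBy K o (2 ^ d - ∑ p, 2 ^ (d - (S p).card))) ∧
      ∀ (C : Finset (Fin d → Bool)) (N : ℕ), (∀ σ ∈ C, Full K o e Finset.univ σ) →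
        SeparatedBy K o N → C.card ≤ N := by
  classical
  obtain ⟨b, hb⟩ := Pool.Agent.Helper272_UH.exists_bas hd n hn
  have hbu : ∀ i, Pool.Agent.Helper272_UH.Uncrossed K o (b i) := fun i => by
    rw [hb]; exact h i
  have hcross : ¬ IsCrossBody K o → ∃ σ, ¬ Pool.Agent.Helper272_UH.Corner b
      (Pool.Agent.TH438.Hull.Pol K o) Finset.univ σ := by
    intro h1
    by_contra hcon
    push Not at hcon
    exact h1 ((isCrossBody_iff K o).2
      (Pool.Agent.Helper272_UH.cross_of_corners hd hK hKc ho b hcon))
  refine ⟨?_, ⟨?_, ?_⟩, ?_, ?_⟩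
  · have h1 := Pool.Agent.Helper272_UH.sep_code hK hKc ho b hbu (ι := Empty) (fun p => p.elim)
      (fun p => p.elim) (fun p => p.elim) (fun p => p.elim)
    simp at h1
    exact h1
  · intro h1 h2
    exact Pool.Agent.R166.Spike.not_sep hd ((isCrossBody_iff K o).1 h2) h1
  · intro h1
    obtain ⟨σ, hσ⟩ := hcross h1
    have h2 := Pool.Agent.Helper272_UH.sep_code hK hKc ho b hbu (ι := Unit)
      (fun _ => Finset.univ) (fun _ => σ) (fun _ => hσ) (fun p q hpq => absurd rfl hpq)
    simp at h2
    exact h2
  · intro h3 hsym h1
    obtain ⟨σ, hσ⟩ := hcross h1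
    let τ : Fin d → Bool := fun i => !σ i
    have hτ : ¬ Pool.Agent.Helper272_UH.Corner b (Pool.Agent.TH438.Hull.Pol K o) Finset.univ τ := by
      rintro ⟨x, hx, hmax⟩
      have hneg : ∀ v ∈ Pool.Agent.TH438.Hull.Pol K o, -v ∈ Pool.Agent.TH438.Hull.Pol K o := by
        intro v hv y hy
        have h4 := hv _ (hsym y hy)
        rw [add_sub_cancel_left] at h4
        rw [inner_neg_left, ← inner_neg_right, neg_sub]
        exact h4
      apply hσ
      refine ⟨-x, hneg x hx, fun i hi y hy => ?_⟩
      have h4 := hmax i hi (-y) (hneg y hy)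
      simp only [τ, Pool.Agent.Helper272_UH.sg_not, map_neg] at h4
      rw [map_neg]
      linarith
    have h2 := Pool.Agent.Helper272_UH.sep_code hK hKc ho b hbu (ι := Bool)
      (fun _ => Finset.univ) (fun p => if p then σ else τ) (by
        intro p
        cases p
        · exact hτ
        · exact hσ) (by
        intro p q hpq
        rw [Finset.inter_self, Finset.filter_true_of_mem]
        · rw [Finset.card_univ, Fintype.card_fin]
          exact h3
        · intro i _
          cases p <;> cases q
          · exact absurd rfl hpq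
          · simp only [τ, Bool.false_eq_true, if_false, if_true]
            cases σ i <;> simp
          · simp only [τ, Bool.false_eq_true, if_false, if_true]
            cases σ i <;> simp
          · exact absurd rfl hpq)
    simp at h2
    exact h2
  · intro e he
    have he' : ∀ i j, ⟪b i, e j⟫_ℝ = if i = j then 1 else 0 := fun i j => by
      rw [hb]; exact he i j
    refine ⟨fun ι _ S s hD hdist => ?_, fun C N hC hN => ?_⟩
    · exact Pool.Agent.Helper272_UH.sep_code hK hKc ho b hbu S s (fun p hcor => hD p
        (Pool.Agent.Helper272_UH.full_of_corner hd hK hKc ho b e he' hcor)) hdist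
    · exact Pool.Agent.Helper272_UH.lower hd e C hC hN

end Pool.Agent.Results.MP_5e7226_co.UncrossedHyperplanes
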